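import Pool.Agent.N805.JG.Stm

set_option autoImplicit false

namespace Pool.Agent.N921.JG

open Pool.Agent.N805.JG MeasureTheory

theorem measurable_num {M : ℕ} {U : Set ℝ} (hU : MeasurableSet U) :
    Measurable (fun θ : Fin M → ℝ => num θ U) := by
  classical
  have e : (fun θ : Fin M → ℝ => num θ U) = fun θ => ∑ i : Fin M, if θ i ∈ U then 1 else 0 := by
    funext θ
    unfold num
    rw [Finset.card_filter]
  rw [e]
  refine Finset.measurable_sum _ fun i _ => ?_
  exact Measurable.ite (measurable_pi_apply i hU) measurable_const measurable_const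

theorem num_le {M : ℕ} (U : Set ℝ) (θ : Fin M → ℝ) : num θ U ≤ M := by
  classical
  unfold num
  refine le_trans (Finset.card_filter_le _ _) ?_
  simp

theorem integrable_num {M : ℕ} {U : Set ℝ} (hU : MeasurableSet U) [IsProbabilityMeasure (cue M)]
    (g : ℕ → ℝ) : Integrable (fun θ : Fin M → ℝ => g (num θ U)) (cue M) := by
  have hm : Measurable (fun θ : Fin M → ℝ => g (num θ U)) :=
    (measurable_of_countable g).comp (measurable_num hU)
  refine Integrable.of_bound hm.aestronglyMeasurable (∑ k ∈ Finset.range (M + 1), |g k|) ?_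
  refine Filter.Eventually.of_forall fun θ => ?_
  rw [Real.norm_eq_abs]
  exact Finset.single_le_sum (f := fun k => |g k|) (fun k _ => abs_nonneg _)
    (Finset.mem_range.mpr (Nat.lt_succ_of_le (num_le U θ)))

theorem le_of_eps (a b C e0 : ℝ) (he : 0 < e0) (h : ∀ ε : ℝ, 0 < ε → ε < e0 → a ≤ b + C * ε) :
    a ≤ b := by
  by_contra hcon
  push Not at hcon
  have hd : 0 < a - b := by linarith
  have hC : 0 < 2 * (|C| + 1) := by positivity
  have h1 : 0 < (a - b) / (2 * (|C| + 1)) := div_pos hd hC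
  have h2 := h (min (e0 / 2) ((a - b) / (2 * (|C| + 1)))) (lt_min (by linarith) h1)
    (lt_of_le_of_lt (min_le_left _ _) (by linarith))
  have h3 : C * min (e0 / 2) ((a - b) / (2 * (|C| + 1))) ≤ (|C| + 1) * ((a - b) / (2 * (|C| + 1))) := by
    have hm : 0 ≤ min (e0 / 2) ((a - b) / (2 * (|C| + 1))) := le_min (by linarith) h1.le
    calc C * min (e0 / 2) ((a - b) / (2 * (|C| + 1)))
        ≤ (|C| + 1) * min (e0 / 2) ((a - b) / (2 * (|C| + 1))) := by
          refine mul_le_mul_of_nonneg_right ?_ hm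
          linarith [le_abs_self C]
      _ ≤ _ := mul_le_mul_of_nonneg_left (min_le_right _ _) (by positivity)
  have h4 : (|C| + 1) * ((a - b) / (2 * (|C| + 1))) = (a - b) / 2 := by
    field_simp
  rw [h4] at h3
  linarith

theorem pow_two_terms (ε : ℝ) (hε : 0 ≤ ε) (n : ℕ) :
    1 + ε * n + ε ^ 2 / 2 * (n * (n - 1)) ≤ (1 + ε) ^ n := by
  induction n with
  | zero => simp
  | succ n ih =>
    have h1 : (0 : ℝ) ≤ n * (n - 1) := by
      rcases n with _ | n
      · simp
      · have : (0 : ℝ) ≤ n := Nat.cast_nonneg n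
        push_cast
        have : ((n : ℝ) + 1) * ((n : ℝ) + 1 - 1) = (n + 1) * n := by ring
        rw [this]; positivity
    have h2 : (1 + ε) ^ (n + 1) = (1 + ε) ^ n * (1 + ε) := pow_succ _ _
    rw [h2]
    have h3 := mul_le_mul_of_nonneg_right ih (by linarith : (0 : ℝ) ≤ 1 + ε)
    refine le_trans ?_ h3
    push_cast
    have h4 : 0 ≤ ε ^ 3 / 2 * ((n : ℝ) * (n - 1)) := mul_nonneg (by positivity) h1
    nlinarith [h4]

theorem exp_neg_le (x : ℝ) (hx : 0 ≤ x) : Real.exp (-x) ≤ 1 - x + x ^ 2 := by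
  rw [Real.exp_neg]
  have h1 : 1 + x ≤ Real.exp x := by linarith [Real.add_one_le_exp x]
  have h2 : (Real.exp x)⁻¹ ≤ (1 + x)⁻¹ := inv_anti₀ (by linarith) h1
  refine le_trans h2 ?_
  rw [inv_le_iff_one_le_mul₀ (by linarith)]
  have : 0 ≤ x ^ 3 := by positivity
  nlinarith

theorem exp_le3 (x : ℝ) (hx : 0 ≤ x) (hx1 : x ≤ 1) : Real.exp x ≤ 1 + x + x ^ 2 / 2 + x ^ 3 := by
  have h := Real.exp_bound' hx hx1 (n := 3) (by norm_num)
  have h3 : 0 ≤ x ^ 3 := by positivity
  refine le_trans h ?_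
  simp only [Finset.sum_range_succ, Finset.sum_range_zero, Nat.factorial]
  norm_num
  nlinarith

theorem PAIR : S_PAIR := by
  intro hE hPr M hM U hU hU1
  have : IsProbabilityMeasure (cue M) := hPr hE M
  obtain ⟨lam, hlam, hsum, -, hz⟩ := hE M hM U hU hU1
  set μ : ℝ := M * volume.real U with hμ
  have hμ0 : 0 ≤ μ := by
    rw [← hsum]; exact Finset.sum_nonneg fun i _ => (hlam i).1
  refine ⟨integrable_num hU fun n => (n : ℝ) * (n - 1), ?_⟩
  set EN : ℝ := ∫ θ, (num θ U : ℝ) ∂(cue M) with hEN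
  set E2 : ℝ := ∫ θ, (num θ U : ℝ) * (num θ U - 1) ∂(cue M) with hE2
  have iN : Integrable (fun θ : Fin M → ℝ => (num θ U : ℝ)) (cue M) :=
    integrable_num hU fun n => (n : ℝ)
  have i2 : Integrable (fun θ : Fin M → ℝ => (num θ U : ℝ) * (num θ U - 1)) (cue M) :=
    integrable_num hU fun n => (n : ℝ) * (n - 1)
  -- lower bound for the mean
  have hA : μ ≤ EN := by
    refine le_of_eps μ EN (μ ^ 2) 1 one_pos fun ε hε hε1 => ?_
    have h1 := (hz (1 - ε) (by linarith)).2
    have i1 := (hz (1 - ε) (by linarith)).1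
    have h2 : ∫ θ, (1 - ε * (num θ U : ℝ)) ∂(cue M) ≤ ∫ θ, (1 - ε) ^ num θ U ∂(cue M) := by
      refine integral_mono ((integrable_const _).sub (iN.const_mul ε)) i1 fun θ => ?_
      have := one_add_mul_le_pow (a := -ε) (by linarith) (num θ U)
      have e : 1 + (num θ U : ℝ) * -ε = 1 - ε * (num θ U : ℝ) := by ring
      rw [e] at this
      have e' : (1 : ℝ) + -ε = 1 - ε := by ring
      rw [e'] at this
      exact this
    rw [integral_sub (integrable_const _) (iN.const_mul ε), integral_const_mul, h1] at h2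
    simp only [integral_const, probReal_univ, smul_eq_mul, mul_one] at h2
    have h3 : ∏ i, (1 + ((1 - ε) - 1) * lam i) ≤ Real.exp (-(ε * μ)) := by
      have : Real.exp (-(ε * μ)) = ∏ i, Real.exp (-(ε * lam i)) := by
        rw [← Real.exp_sum, ← hsum, Finset.mul_sum, Finset.sum_neg_distrib]
      rw [this]
      refine Finset.prod_le_prod (fun i _ => ?_) fun i _ => ?_
      · have := hlam i; nlinarith [this.1, this.2]
      · have := Real.add_one_le_exp (-(ε * lam i))
        linarith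
    have h4 := exp_neg_le (ε * μ) (by positivity)
    have h5 : 1 - ε * EN ≤ 1 - ε * μ + (ε * μ) ^ 2 := le_trans h2 (le_trans h3 h4)
    have h6 : ε * μ ≤ ε * (EN + μ ^ 2 * ε) := by nlinarith
    exact le_of_mul_le_mul_left h6 hε
  -- upper bound for the second factorial moment
  refine le_of_eps E2 (μ ^ 2) (2 * μ ^ 3) (1 / (1 + μ)) (by positivity) fun ε hε hε1 => ?_
  have hεμ : ε * μ ≤ 1 := by
    rw [lt_div_iff₀ (by linarith)] at hε1
    nlinarith
  have h1 := (hz (1 + ε) (by linarith)).2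
  have i1 := (hz (1 + ε) (by linarith)).1
  have h2 : ∫ θ, (1 + ε * (num θ U : ℝ) + ε ^ 2 / 2 * ((num θ U : ℝ) * (num θ U - 1))) ∂(cue M)
      ≤ ∫ θ, (1 + ε) ^ num θ U ∂(cue M) := by
    refine integral_mono (((integrable_const _).add (iN.const_mul ε)).add (i2.const_mul _)) i1
      fun θ => ?_
    exact pow_two_terms ε hε.le (num θ U)
  have i3 : Integrable (fun θ : Fin M → ℝ => 1 + ε * (num θ U : ℝ)) (cue M) :=
    (integrable_const _).add (iN.const_mul ε)
  have e3 : ∫ θ, (1 + ε * (num θ U : ℝ) + ε ^ 2 / 2 * ((num θ U : ℝ) * (num θ U - 1))) ∂(cue M)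
      = 1 + ε * EN + ε ^ 2 / 2 * E2 := by
    rw [integral_add i3 (i2.const_mul _), integral_add (integrable_const _) (iN.const_mul ε),
      integral_const_mul, integral_const_mul]
    simp only [integral_const, probReal_univ, smul_eq_mul, mul_one]
    rfl
  rw [e3, h1] at h2
  have h3 : ∏ i, (1 + ((1 + ε) - 1) * lam i) ≤ Real.exp (ε * μ) := by
    have : Real.exp (ε * μ) = ∏ i, Real.exp (ε * lam i) := by
      rw [← Real.exp_sum, ← hsum, Finset.mul_sum]
    rw [this]
    refine Finset.prod_le_prod (fun i _ => ?_) fun i _ => ?_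
    · have := hlam i; nlinarith [this.1, this.2]
    · have := Real.add_one_le_exp (ε * lam i)
      linarith
  have h4 := exp_le3 (ε * μ) (by positivity) hεμ
  have h5 : 1 + ε * EN + ε ^ 2 / 2 * E2 ≤ 1 + ε * μ + (ε * μ) ^ 2 / 2 + (ε * μ) ^ 3 :=
    le_trans h2 (le_trans h3 h4)
  have h6 : ε * μ ≤ ε * EN := mul_le_mul_of_nonneg_left hA hε.le
  have h7 : ε ^ 2 * E2 ≤ ε ^ 2 * (μ ^ 2 + 2 * μ ^ 3 * ε) := by nlinarith
  exact le_of_mul_le_mul_left h7 (by positivity)

end Pool.Agent.N921.JG
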